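import Pool.Agent.N389.CI.Four

set_option autoImplicit false
set_option linter.unusedSectionVars false

/-! # Bilinear exponential sums modulo a prime over arbitrary sets -/

namespace Pool.Agent.N389.BI

open Finset Matrix
open Pool.Agent.N725.JC
open Pool.Agent.N389.CI

section

variable {p : ℕ} [Fact p.Prime]

/-- the number of elements of the kernel of a matrix -/
lemma card_ker {d : ℕ} (T : Matrix (Fin d) (Fin d) (ZMod p)) :
    ((univ.filter (fun b : Fin d → ZMod p => T *ᵥ b = 0)).card) * p ^ T.rank = p ^ d := by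
  classical
  have h1 : (univ.filter (fun b : Fin d → ZMod p => T *ᵥ b = 0)).card =
      Fintype.card (LinearMap.ker T.mulVecLin) := by
    rw [Fintype.card_of_subtype]
    intro b
    simp [LinearMap.mem_ker]
  have h2 : Fintype.card (LinearMap.ker T.mulVecLin) =
      p ^ Module.finrank (ZMod p) (LinearMap.ker T.mulVecLin) := by
    rw [Module.card_eq_pow_finrank (K := ZMod p), ZMod.card]
  have h3 := LinearMap.finrank_range_add_finrank_ker T.mulVecLin
  rw [Module.finrank_fin_fun] at h3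
  have h4 : T.rank = Module.finrank (ZMod p) (LinearMap.range T.mulVecLin) := rfl
  rw [h1, h2, h4, ← pow_add, add_comm, h3]

lemma dot_sum {d : ℕ} (c : Fin d → ZMod p) :
    ∑ a : Fin d → ZMod p, (ZMod.stdAddChar (a ⬝ᵥ c) : ℂ) = if c = 0 then (p : ℂ) ^ d else 0 := by
  have h1 : ∑ a : Fin d → ZMod p, (ZMod.stdAddChar (a ⬝ᵥ c) : ℂ) =
      ∏ i, ∑ y : ZMod p, (ZMod.stdAddChar (y * c i) : ℂ) := by
    rw [Finset.prod_univ_sum, Fintype.piFinset_univ]
    exact Finset.sum_congr rfl fun a _ => stdAddChar_sum _ _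
  have h2 : ∀ i, ∑ y : ZMod p, (ZMod.stdAddChar (y * c i) : ℂ) = if c i = 0 then (p : ℂ) else 0 := by
    intro i
    rw [← char_sum]
    exact Finset.sum_congr rfl fun a _ => by rw [mul_comm]
  rw [h1]
  simp_rw [h2]
  rw [Finset.prod_ite_zero, Finset.prod_const, card_univ, Fintype.card_fin]
  congr 1
  simp only [eq_iff_iff]
  constructor
  · intro h; funext i; exact h i (mem_univ i)
  · intro h i _; rw [h]; rfl

/-- **Bilinear sums over arbitrary sets.** -/
theorem bil_est {d : ℕ} (T : Matrix (Fin d) (Fin d) (ZMod p)) (A B : Finset (Fin d → ZMod p))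
    (φ ψ : (Fin d → ZMod p) → ZMod p) :
    ‖∑ x ∈ A ×ˢ B, (ZMod.stdAddChar (x.1 ⬝ᵥ (T *ᵥ x.2) + φ x.1 + ψ x.2) : ℂ)‖ ^ 2 * (p : ℝ) ^ T.rank ≤
      A.card * B.card * (p : ℝ) ^ (2 * d) := by
  classical
  have hp0 : (0 : ℝ) < p := by exact_mod_cast (Fact.out : p.Prime).pos
  obtain ⟨U, hU⟩ : ∃ U : (Fin d → ZMod p) → ℂ, U = fun a =>
    ∑ b ∈ B, ZMod.stdAddChar (ψ b) * ZMod.stdAddChar (a ⬝ᵥ (T *ᵥ b)) := ⟨_, rfl⟩
  have h1 : ∑ x ∈ A ×ˢ B, (ZMod.stdAddChar (x.1 ⬝ᵥ (T *ᵥ x.2) + φ x.1 + ψ x.2) : ℂ) =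
      ∑ a ∈ A, ZMod.stdAddChar (φ a) * U a := by
    rw [Finset.sum_product]
    refine Finset.sum_congr rfl fun a _ => ?_
    rw [hU]
    simp only
    rw [Finset.mul_sum]
    refine Finset.sum_congr rfl fun b _ => ?_
    rw [AddChar.map_add_eq_mul, AddChar.map_add_eq_mul]
    ring
  have h2 : ‖∑ a ∈ A, ZMod.stdAddChar (φ a) * U a‖ ≤ ∑ a ∈ A, ‖U a‖ := by
    refine (norm_sum_le _ _).trans (Finset.sum_le_sum fun a _ => ?_)
    rw [norm_mul, AddChar.norm_apply, one_mul]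
  have h3 : (∑ a ∈ A, ‖U a‖) ^ 2 ≤ A.card * ∑ a : Fin d → ZMod p, ‖U a‖ ^ 2 := by
    refine (sq_sum_le_card_mul_sum_sq (s := A) (f := fun a => ‖U a‖)).trans ?_
    apply mul_le_mul_of_nonneg_left _ (Nat.cast_nonneg _)
    exact Finset.sum_le_sum_of_subset_of_nonneg (subset_univ _) fun _ _ _ => by positivity
  have h4 : ((∑ a : Fin d → ZMod p, ‖U a‖ ^ 2 : ℝ) : ℂ) =
      ∑ b ∈ B, ∑ b' ∈ B, (ZMod.stdAddChar (ψ b - ψ b') : ℂ) *
        (if T *ᵥ (b - b') = 0 then (p : ℂ) ^ d else 0) := by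
    push_cast
    have h5 : ∀ a, ((‖U a‖ : ℂ)) ^ 2 = ∑ b ∈ B, ∑ b' ∈ B, (ZMod.stdAddChar (ψ b - ψ b') : ℂ) *
        ZMod.stdAddChar (a ⬝ᵥ (T *ᵥ (b - b'))) := by
      intro a
      rw [← Complex.conj_mul']
      rw [mul_comm, hU]
      simp only
      rw [map_sum, Finset.sum_mul_sum]
      refine Finset.sum_congr rfl fun b _ => Finset.sum_congr rfl fun b' _ => ?_
      rw [map_mul, ← AddChar.map_neg_eq_conj, ← AddChar.map_neg_eq_conj, sub_eq_add_neg,
        AddChar.map_add_eq_mul, sub_eq_add_neg, Matrix.mulVec_add, dotProduct_add,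
        AddChar.map_add_eq_mul, Matrix.mulVec_neg, dotProduct_neg]
      ring
    simp_rw [h5]
    rw [Finset.sum_comm]
    refine Finset.sum_congr rfl fun b _ => ?_
    rw [Finset.sum_comm]
    refine Finset.sum_congr rfl fun b' _ => ?_
    rw [← Finset.mul_sum, dot_sum]
  have h6 : ∑ a : Fin d → ZMod p, ‖U a‖ ^ 2 ≤ ∑ b ∈ B,
      (((univ.filter (fun b : Fin d → ZMod p => T *ᵥ b = 0)).card : ℝ) * (p : ℝ) ^ d) := by
    have h7 : ∑ a : Fin d → ZMod p, ‖U a‖ ^ 2 =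
        ‖∑ b ∈ B, ∑ b' ∈ B, (ZMod.stdAddChar (ψ b - ψ b') : ℂ) *
        (if T *ᵥ (b - b') = 0 then (p : ℂ) ^ d else 0)‖ := by
      rw [← h4, Complex.norm_real, Real.norm_eq_abs, abs_of_nonneg]
      exact Finset.sum_nonneg fun _ _ => by positivity
    rw [h7]
    refine (norm_sum_le _ _).trans (Finset.sum_le_sum fun b _ => ?_)
    refine (norm_sum_le _ _).trans ?_
    have h8 : ∀ b' ∈ B, ‖(ZMod.stdAddChar (ψ b - ψ b') : ℂ) *
        (if T *ᵥ (b - b') = 0 then (p : ℂ) ^ d else 0)‖ =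
        if T *ᵥ (b - b') = 0 then (p : ℝ) ^ d else 0 := by
      intro b' _
      rw [norm_mul, AddChar.norm_apply, one_mul]
      split_ifs
      · rw [norm_pow, Complex.norm_natCast]
      · rw [norm_zero]
    rw [Finset.sum_congr rfl h8, ← Finset.sum_filter, Finset.sum_const, nsmul_eq_mul]
    apply mul_le_mul_of_nonneg_right _ (by positivity)
    rw [Nat.cast_le]
    apply Finset.card_le_card_of_injOn (fun b' => b - b')
    · intro b' hb'
      rw [mem_coe, mem_filter] at hb'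
      rw [mem_coe, mem_filter]
      exact ⟨mem_univ _, hb'.2⟩
    · intro x _ y _ hxy
      simpa using hxy
  rw [Finset.sum_const, nsmul_eq_mul] at h6
  have h9 : ((univ.filter (fun b : Fin d → ZMod p => T *ᵥ b = 0)).card : ℝ) * (p : ℝ) ^ T.rank =
      (p : ℝ) ^ d := by exact_mod_cast card_ker T
  rw [h1]
  calc ‖∑ a ∈ A, ZMod.stdAddChar (φ a) * U a‖ ^ 2 * (p : ℝ) ^ T.rank
      ≤ (∑ a ∈ A, ‖U a‖) ^ 2 * (p : ℝ) ^ T.rank := by
        apply mul_le_mul_of_nonneg_right _ (by positivity)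
        exact pow_le_pow_left₀ (norm_nonneg _) h2 2
    _ ≤ (A.card * (B.card * (((univ.filter (fun b : Fin d → ZMod p => T *ᵥ b = 0)).card : ℝ) *
          (p : ℝ) ^ d))) * (p : ℝ) ^ T.rank := by
        apply mul_le_mul_of_nonneg_right _ (by positivity)
        exact h3.trans (mul_le_mul_of_nonneg_left h6 (Nat.cast_nonneg _))
    _ = A.card * B.card * (((univ.filter (fun b : Fin d → ZMod p => T *ᵥ b = 0)).card : ℝ) *
          (p : ℝ) ^ T.rank) * (p : ℝ) ^ d := by ring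
    _ = _ := by rw [h9]; ring

end

end Pool.Agent.N389.BI
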