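import Pool.Agent.N389.BI.Bil

set_option autoImplicit false
set_option linter.unusedSectionVars false

/-! # Record prime gaps at the values of bilinear forms modulo a prime on arbitrary sets -/

namespace Pool.Agent.N389.BI

open Finset Filter Matrix
open Pool.Agent.H256R2.SC (ff)
open Pool.Agent.N725.JC
open Pool.Agent.N389.CI

open scoped Classical in
theorem main (k E : ℕ) (δ : ℝ) (hδ : 0 < δ) (hδ1 : δ ≤ 1) :
    ∃ c : ℝ, 0 < c ∧ ∀ᶠ p : ℕ in atTop, ∀ [Fact p.Prime], ∀ (d ρ : ℕ)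
      (T : Fin k → Matrix (Fin d) (Fin d) (ZMod p)),
      (∀ h : Fin k → ZMod p, h ≠ 0 → ρ ≤ (∑ j, h j • T j).rank) →
      ∀ (A B : Finset (Fin d → ZMod p)) (φ ψ : Fin k → (Fin d → ZMod p) → ZMod p)
        (M : Fin k → ℤ) (L : Fin k → ℕ), (∀ i, (p : ℝ) ^ δ ≤ L i ∧ L i ≤ p) →
      (p : ℝ) ^ (2 * k + 2 * d + δ) ≤ (∏ i, (L i : ℝ)) ^ 2 * (A.card * B.card) * (p : ℝ) ^ ρ →
      (∏ i, (L i : ℝ)) * (A.card * B.card) / (p : ℝ) ^ (k + δ) ≤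
        ((A ×ˢ B).filter (fun x => (∀ i, M i < rep (M i) (L i) (x.1 ⬝ᵥ (T i *ᵥ x.2) + φ i x.1 + ψ i x.2) ∧
          rep (M i) (L i) (x.1 ⬝ᵥ (T i *ᵥ x.2) + φ i x.1 + ψ i x.2) ≤ M i + L i ∧
          ((rep (M i) (L i) (x.1 ⬝ᵥ (T i *ᵥ x.2) + φ i x.1 + ψ i x.2) : ℤ) : ZMod p) =
            x.1 ⬝ᵥ (T i *ᵥ x.2) + φ i x.1 + ψ i x.2) ∧
        ∀ e : Fin k → ℕ, (∀ i, e i ≤ E) → Finset.univ.gcd e = 1 → ∀ m : ℤ,
          |(m : ℝ) - ∏ i, (rep (M i) (L i) (x.1 ⬝ᵥ (T i *ᵥ x.2) + φ i x.1 + ψ i x.2) : ℝ) ^ e i| ≤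
            c * ff p →
            ∃ l : ℕ, l.Prime ∧ (l : ℝ) ≤ (p : ℝ) ^ δ ∧ (l : ℤ) ∣ m)).card := by
  obtain ⟨c, hc, hev⟩ := resid2 k E (δ / 2) (by positivity) (by linarith)
  refine ⟨c, hc, ?_⟩
  filter_upwards [hev, eventually_ge_atTop 2] with p hp1 hp3
  intro hpF d ρ T hT A B φ ψ M L hL hV
  have hp : p.Prime := hpF.out
  have hpr1 : (1 : ℝ) < p := by exact_mod_cast hp.one_lt
  have hpr0 : (0 : ℝ) < p := by linarith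
  have hmono : ∀ a b : ℝ, a ≤ b → (p : ℝ) ^ a ≤ (p : ℝ) ^ b := fun a b hab =>
    Real.rpow_le_rpow_of_exponent_le hpr1.le hab
  have hPr0 : 0 ≤ ∏ i, (L i : ℝ) := Finset.prod_nonneg fun i _ => Nat.cast_nonneg _
  obtain ⟨N, hN⟩ : ∃ N : ℝ, N = (A.card : ℝ) * B.card := ⟨_, rfl⟩
  rw [← hN] at hV ⊢
  have hN0 : 0 ≤ N := by rw [hN]; positivity
  have hNpos : 0 < N := by
    rcases hN0.lt_or_eq with h | h
    · exact h
    · rw [← h, mul_zero, zero_mul] at hV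
      exact absurd hV (not_le.2 (Real.rpow_pos_of_pos hpr0 _))
  have hcard : ((A ×ˢ B).card : ℝ) = N := by
    rw [Finset.card_product, hN]
    push_cast
    rfl
  have hne : (A ×ˢ B).Nonempty := by
    rw [← Finset.card_pos]
    have : (0 : ℝ) < ((A ×ˢ B).card : ℝ) := by rw [hcard]; exact hNpos
    exact_mod_cast this
  -- the bound for the exponential sums
  obtain ⟨E₀, hE₀⟩ : ∃ E₀ : ℝ, E₀ = Real.sqrt (N * (p : ℝ) ^ (2 * d) / (p : ℝ) ^ ρ) := ⟨_, rfl⟩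
  have hE₀0 : 0 ≤ E₀ := by rw [hE₀]; exact Real.sqrt_nonneg _
  have hE₀2 : E₀ ^ 2 = N * (p : ℝ) ^ (2 * d) / (p : ℝ) ^ ρ := by
    rw [hE₀, Real.sq_sqrt (by positivity)]
  have hsum : ∀ h : Fin k → ZMod p, h ≠ 0 → ‖∑ x ∈ A ×ˢ B,
      (ZMod.stdAddChar (∑ i, h i * (x.1 ⬝ᵥ (T i *ᵥ x.2) + φ i x.1 + ψ i x.2)) : ℂ)‖ ≤ E₀ := by
    intro h hh
    have h1 := bil_est (∑ j, h j • T j) A B (fun a => ∑ j, h j * φ j a) (fun b => ∑ j, h j * ψ j b)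
    have h2 : ∀ x : (Fin d → ZMod p) × (Fin d → ZMod p),
        ∑ i, h i * (x.1 ⬝ᵥ (T i *ᵥ x.2) + φ i x.1 + ψ i x.2) =
        x.1 ⬝ᵥ ((∑ j, h j • T j) *ᵥ x.2) + ∑ j, h j * φ j x.1 + ∑ j, h j * ψ j x.2 := by
      intro x
      rw [Matrix.sum_mulVec, dotProduct_sum, ← Finset.sum_add_distrib, ← Finset.sum_add_distrib]
      refine Finset.sum_congr rfl fun i _ => ?_
      rw [Matrix.smul_mulVec, dotProduct_smul, smul_eq_mul]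
      ring
    simp_rw [h2]
    have h3 : (p : ℝ) ^ ρ ≤ (p : ℝ) ^ (∑ j, h j • T j).rank :=
      pow_le_pow_right₀ hpr1.le (hT h hh)
    apply le_of_sq_le_sq _ hE₀0
    rw [hE₀2, le_div_iff₀ (pow_pos hpr0 ρ), hN]
    refine le_trans ?_ h1
    exact mul_le_mul_of_nonneg_left h3 (by positivity)
  have hmain := hp1 _ (A ×ˢ B) (fun i x => x.1 ⬝ᵥ (T i *ᵥ x.2) + φ i x.1 + ψ i x.2) M L E₀ hE₀0 hne hsum
    (fun i => ⟨(hmono _ _ (by linarith)).trans (hL i).1, (hL i).2⟩)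
    (by
      rw [hcard]
      apply le_of_sq_le_sq _ (by positivity)
      rw [mul_pow, hE₀2, ← Real.rpow_natCast ((p : ℝ) ^ (δ / 2)), ← Real.rpow_mul hpr0.le, div_pow,
        le_div_iff₀ (by positivity), div_mul_eq_mul_div, div_mul_eq_mul_div,
        div_le_iff₀ (pow_pos hpr0 ρ)]
      have h1 : (p : ℝ) ^ (2 * k + 2 * d + δ) =
          (p : ℝ) ^ (2 * d) * (p : ℝ) ^ (δ / 2 * ((2 : ℕ) : ℝ)) * ((p : ℝ) ^ k) ^ 2 := by
        rw [← pow_mul, ← Real.rpow_natCast, ← Real.rpow_natCast, ← Real.rpow_add hpr0,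
          ← Real.rpow_add hpr0]
        congr 1
        push_cast
        ring
      rw [h1] at hV
      calc N * (p : ℝ) ^ (2 * d) * (p : ℝ) ^ (δ / 2 * ((2 : ℕ) : ℝ)) * ((p : ℝ) ^ k) ^ 2
          = N * ((p : ℝ) ^ (2 * d) * (p : ℝ) ^ (δ / 2 * ((2 : ℕ) : ℝ)) * ((p : ℝ) ^ k) ^ 2) := by ring
        _ ≤ N * ((∏ i, (L i : ℝ)) ^ 2 * N * (p : ℝ) ^ ρ) := mul_le_mul_of_nonneg_left hV hN0
        _ = _ := by ring)
  rw [hcard] at hmain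
  have hlow : (∏ i, (L i : ℝ)) * N / (p : ℝ) ^ (k + δ) ≤
      (∏ i, (L i : ℝ)) * N / (p : ℝ) ^ k * (p : ℝ) ^ (-(δ / 2)) := by
    have h1 : (1 : ℝ) / (p : ℝ) ^ (k + δ) ≤ 1 / (p : ℝ) ^ k * (p : ℝ) ^ (-(δ / 2)) := by
      rw [one_div, ← Real.rpow_neg hpr0.le, one_div, ← Real.rpow_natCast, ← Real.rpow_neg hpr0.le,
        ← Real.rpow_add hpr0]
      exact hmono _ _ (by linarith)
    calc (∏ i, (L i : ℝ)) * N / (p : ℝ) ^ (k + δ)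
        = ((∏ i, (L i : ℝ)) * N) * (1 / (p : ℝ) ^ (k + δ)) := by ring
      _ ≤ ((∏ i, (L i : ℝ)) * N) * (1 / (p : ℝ) ^ k * (p : ℝ) ^ (-(δ / 2))) :=
          mul_le_mul_of_nonneg_left h1 (mul_nonneg hPr0 hN0)
      _ = _ := by ring
  refine (hlow.trans hmain).trans ?_
  rw [Nat.cast_le]
  apply Finset.card_le_card
  intro x hx
  rw [mem_filter] at hx ⊢
  refine ⟨hx.1, hx.2.1, fun e he hg m hm => ?_⟩
  obtain ⟨l, h1, h2, h3⟩ := hx.2.2 e he hg m hm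
  exact ⟨l, h1, h2.trans (hmono _ _ (by linarith)), h3⟩

end Pool.Agent.N389.BI
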